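import Mathlib

namespace Pool.Agent.Results.MP_d3d931_al.MonoidCase

/-- the subalgebra M(α_1, ..., α_d, β) of matrices with rows indexed by {0,1}^d and two columns -/
inductive Cube {S : Type} [Mul S] {d : ℕ} (α : Fin d → Con S) (β : Con S) :
    ((Fin d → Bool) → Bool → S) → Prop
  | row (i : Fin d) (a b : S) : α i a b → Cube α β (fun ε _ => if ε i then b else a)
  | col (a b : S) : β a b → Cube α β (fun _ η => if η then b else a)
  | mul (x y : (Fin d → Bool) → Bool → S) : Cube α β x → Cube α β y →
      Cube α β (fun ε η => x ε η * y ε η)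

/-- the term condition modulo δ -/
def TC {S : Type} [Mul S] {d : ℕ} (α : Fin d → Con S) (β δ : Con S) : Prop :=
  ∀ x, Cube α β x → (∀ ε, ε ≠ (fun _ => true) → δ (x ε false) (x ε true)) →
    δ (x (fun _ => true) false) (x (fun _ => true) true)

/-- the higher commutator [α_1, ..., α_d, β]: the least congruence with the term condition -/
def hc {S : Type} [Mul S] {d : ℕ} (α : Fin d → Con S) (β : Con S) : Con S :=
  sInf {δ | TC α β δ}

/-- the binary commutator -/
def bc {S : Type} [Mul S] (α β : Con S) : Con S := hc (fun _ : Fin 1 => α) β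

/-- [1,[1,...,[1,1]...]] with k+1 copies of 1 -/
def leftS (S : Type) [Mul S] : ℕ → Con S
  | 0 => ⊤
  | k + 1 => bc ⊤ (leftS S k)

/-- [...[[1,1],1],...,1] with k+1 copies of 1 -/
def rightS (S : Type) [Mul S] : ℕ → Con S
  | 0 => ⊤
  | k + 1 => bc (rightS S k) ⊤

/-- equality version of the term condition for the total congruence -/
def T0 (S : Type) [Mul S] (d : ℕ) : Prop :=
  ∀ x, Cube (fun _ : Fin d => (⊤ : Con S)) ⊤ x →
    (∀ ε, ε ≠ (fun _ => true) → x ε false = x ε true) →
    x (fun _ => true) false = x (fun _ => true) true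

theorem t0_of {S : Type} [Mul S] {d : ℕ} (h : hc (fun _ : Fin d => (⊤ : Con S)) ⊤ = ⊥) :
    T0 S d := by
  intro x hx hr
  have : hc (fun _ : Fin d => (⊤ : Con S)) ⊤ (x (fun _ => true) false)
      (x (fun _ => true) true) := by
    rw [hc, Con.coe_sInf, sInf_image]
    simp only [iInf_apply, iInf_Prop_eq]
    intro δ hδ
    exact hδ x hx fun ε hε => by rw [hr ε hε]; exact δ.refl _
  rw [h] at this
  exact this

theorem ex_false {d : ℕ} (ε : Fin d → Bool) (h : ε ≠ fun _ => true) : ∃ i, ε i = false := by
  by_contra hc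
  push Not at hc
  exact h (funext fun i => by simpa using hc i)

section Mon
variable {M : Type} [Monoid M] {d : ℕ}

abbrev C0 (x : (Fin d → Bool) → Bool → M) : Prop := Cube (fun _ : Fin d => (⊤ : Con M)) ⊤ x

theorem c0_const (a : M) : C0 (d := d) (fun _ _ => a) := by
  simpa using Cube.col (α := fun _ : Fin d => (⊤ : Con M)) (β := ⊤) a a trivial

theorem c0_list {ι : Type} (l : List ι) (F : ι → (Fin d → Bool) → Bool → M)
    (h : ∀ i ∈ l, C0 (F i)) : C0 (fun ε η => (l.map fun i => F i ε η).prod) := by
  induction l with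
  | nil => simpa using c0_const (1 : M)
  | cons i l ih =>
    simp only [List.map_cons, List.prod_cons]
    exact Cube.mul _ _ (h i (by simp)) (ih fun j hj => h j (by simp [hj]))

theorem pw (a : M) (ε : Fin d → Bool) (l : List (Fin d)) :
    (l.map fun i => if ε i then (1 : M) else a).prod = a ^ (l.countP fun i => !ε i) := by
  induction l with
  | nil => simp
  | cons i l ih =>
    rw [List.map_cons, List.prod_cons, ih, List.countP_cons]
    cases h : ε i <;> simp [pow_succ']

theorem cnt_pos (ε : Fin d → Bool) (h : ε ≠ fun _ => true) :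
    ∃ k, ((List.finRange d).countP fun i => !ε i) = k + 1 := by
  obtain ⟨i, hi⟩ := ex_false ε h
  apply Nat.exists_eq_succ_of_ne_zero
  intro h0
  rw [List.countP_eq_zero] at h0
  exact h0 i (List.mem_finRange i) (by simp [hi])

theorem c0_pw (a : M) : C0 (d := d) (fun ε _ =>
    ((List.finRange d).map fun i => if ε i then (1 : M) else a).prod) :=
  c0_list _ (fun i ε _ => if ε i then (1 : M) else a) fun i _ => Cube.row i a 1 trivial

theorem lcan (h : T0 M d) (a b c : M) (e : a * b = a * c) : b = c := by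
  have := h _ (Cube.mul _ _ (c0_pw a) (Cube.col b c trivial)) (fun ε hε => by
    obtain ⟨k, hk⟩ := cnt_pos ε hε
    simp only [pw, hk, pow_succ, mul_assoc]
    simp [e])
  simpa using this

theorem rcan (h : T0 M d) (a b c : M) (e : b * a = c * a) : b = c := by
  have := h _ (Cube.mul _ _ (Cube.col b c trivial) (c0_pw a)) (fun ε hε => by
    obtain ⟨k, hk⟩ := cnt_pos ε hε
    simp only [pw, hk, pow_succ', ← mul_assoc]
    simp [e])
  simpa using this

abbrev En := ℕ × Bool × Bool

def ev (x y : M) (ε : ℕ → Bool) (e : En) : M :=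
  if ε e.1 = e.2.1 then (if e.2.2 then y else x) else 1

def EV (x y : M) (ε : ℕ → Bool) (g : List En) : M := (g.map (ev x y ε)).prod

def st (n : ℕ) : List En → List En
  | [] => []
  | (i, v, false) :: g => (i, v, false) :: (i, v, true) :: st n g
  | (i, v, true) :: g =>
      (n, false, false) :: (i, v, true) :: (i, v, false) :: (n, false, true) :: st n g

def gad : ℕ → List En
  | 0 => [(0, false, false), (0, true, true)]
  | n + 1 => st (n + 1) (gad n)

def len (ε : ℕ → Bool) : List En → ℕ
  | [] => 0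
  | e :: g => (if ε e.1 = e.2.1 then 1 else 0) + len ε g

def cy : List En → ℕ
  | [] => 0
  | e :: g => (if e.2.2 then 1 else 0) + cy g

theorem EV_cons (x y : M) (ε : ℕ → Bool) (e : En) (g : List En) :
    EV x y ε (e :: g) = ev x y ε e * EV x y ε g := by simp [EV]

theorem st_true (x y : M) (ε : ℕ → Bool) (n : ℕ) (h : ε n = true) (g : List En) :
    EV x y ε (st n g) = EV (x * y) (y * x) ε g := by
  induction g with
  | nil => simp [st, EV]
  | cons e g ih =>
    obtain ⟨i, v, b⟩ := e
    cases b <;> by_cases hv : ε i = v <;> simp [st, EV_cons, ih, ev, h, hv, mul_assoc]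

theorem st_false (x y : M) (ε : ℕ → Bool) (n : ℕ) (h : ε n = false) (g : List En) :
    EV x y ε (st n g) = (x * y) ^ (cy g + len ε g) := by
  induction g with
  | nil => simp [st, EV, cy, len]
  | cons e g ih =>
    obtain ⟨i, v, b⟩ := e
    cases b <;> by_cases hv : ε i = v
    · have : cy ((i, v, false) :: g) + len ε ((i, v, false) :: g) = cy g + len ε g + 1 := by
        simp [cy, len, hv]; ring
      rw [this, pow_succ']
      simp [st, EV_cons, ih, ev, hv, mul_assoc]
    · have : cy ((i, v, false) :: g) + len ε ((i, v, false) :: g) = cy g + len ε g := by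
        simp [cy, len, hv]
      rw [this]
      simp [st, EV_cons, ih, ev, hv]
    · have : cy ((i, v, true) :: g) + len ε ((i, v, true) :: g) = cy g + len ε g + 1 + 1 := by
        simp [cy, len, hv]; ring
      rw [this, pow_succ', pow_succ']
      simp [st, EV_cons, ih, ev, hv, h, mul_assoc]
    · have : cy ((i, v, true) :: g) + len ε ((i, v, true) :: g) = cy g + len ε g + 1 := by
        simp [cy, len, hv]; ring
      rw [this, pow_succ']
      simp [st, EV_cons, ih, ev, hv, h, mul_assoc]

theorem st_len (ε : ℕ → Bool) (n : ℕ) (g : List En) :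
    len ε (st n g) = 2 * len ε g + (if ε n = false then 2 * cy g else 0) := by
  induction g with
  | nil => simp [st, len, cy]
  | cons e g ih =>
    obtain ⟨i, v, b⟩ := e
    cases b <;> by_cases hv : ε i = v <;> by_cases hn : ε n = false <;>
      simp [st, len, cy, ih, hv, hn] <;> ring

theorem st_le (n : ℕ) (g : List En) (h : ∀ e ∈ g, e.1 ≤ n) : ∀ e ∈ st n g, e.1 ≤ n := by
  induction g with
  | nil => simp [st]
  | cons e g ih =>
    obtain ⟨i, v, b⟩ := e
    have h1 : i ≤ n := h (i, v, b) (by simp)
    have h2 := ih fun e he => h e (by simp [he])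
    cases b
    · intro e he
      simp only [st, List.mem_cons] at he
      rcases he with rfl | rfl | he
      exacts [h1, h1, h2 e he]
    · intro e he
      simp only [st, List.mem_cons] at he
      rcases he with rfl | rfl | rfl | rfl | he
      exacts [le_rfl, h1, h1, le_rfl, h2 e he]

theorem gad_le (n : ℕ) : ∀ e ∈ gad n, e.1 ≤ n := by
  induction n with
  | zero => simp [gad]
  | succ n ih => exact st_le _ _ fun e he => (ih e he).trans (Nat.le_succ n)

theorem gad_len (ε ε' : ℕ → Bool) (h : ∀ i, ε (i + 1) = ε' (i + 1)) (n : ℕ) :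
    len ε (gad n) = len ε' (gad n) := by
  induction n with
  | zero => cases h0 : ε 0 <;> cases h1 : ε' 0 <;> simp [gad, len, h0, h1]
  | succ n ih => rw [gad, st_len, st_len, ih, h]

theorem gad_eq (ε ε' : ℕ → Bool) (h : ∀ i, ε (i + 1) = ε' (i + 1)) (n : ℕ) :
    ∀ x y : M, (∃ i < n, ε (i + 1) = false) → EV x y ε (gad n) = EV x y ε' (gad n) := by
  induction n with
  | zero => rintro x y ⟨i, hi, -⟩; omega
  | succ n ih =>
    rintro x y ⟨i, hi, h1⟩
    cases hn : ε (n + 1)
    · rw [gad, st_false _ _ _ _ hn, st_false _ _ _ _ (h n ▸ hn), gad_len ε ε' h]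
    · rw [gad, st_true _ _ _ _ hn, st_true _ _ _ _ (h n ▸ hn)]
      refine ih _ _ ⟨i, ?_, h1⟩
      rcases Nat.lt_succ_iff_lt_or_eq.1 hi with h2 | h2
      · exact h2
      · subst h2; rw [hn] at h1; exact absurd h1 (by simp)

theorem gad_ne (ε ε' : ℕ → Bool) (h : ∀ i, ε (i + 1) = true) (h' : ∀ i, ε' (i + 1) = true)
    (h0 : ε 0 = false) (h0' : ε' 0 = true) (n : ℕ) :
    ∀ x y : M, (∀ u v, u * x ≠ v * y) → EV x y ε (gad n) ≠ EV x y ε' (gad n) := by
  induction n with
  | zero =>
    intro x y hxy
    simpa [gad, EV, ev, h0, h0'] using hxy 1 1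
  | succ n ih =>
    intro x y hxy
    rw [gad, st_true _ _ _ _ (h n), st_true _ _ _ _ (h' n)]
    refine ih _ _ fun u v e => hxy (v * y) (u * x) ?_
    simpa [mul_assoc] using e.symm

def asg (ε : Fin d → Bool) (η : Bool) : ℕ → Bool
  | 0 => η
  | i + 1 => if h : i < d then ε ⟨i, h⟩ else true

theorem ore (h : T0 M d) (x y : M) : ∃ u v, u * x = v * y := by
  by_contra hc
  push Not at hc
  have hcube : C0 (d := d) (fun ε η => EV x y (asg ε η) (gad d)) := by
    refine c0_list _ (fun e ε η => ev x y (asg ε η) e) ?_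
    rintro ⟨i, v, b⟩ he
    have hi : i ≤ d := gad_le d _ he
    cases i with
    | zero =>
      have := Cube.col (α := fun _ : Fin d => (⊤ : Con M)) (β := ⊤)
        (if false = v then (if b then y else x) else 1)
        (if true = v then (if b then y else x) else 1) trivial
      convert this using 3 with ε η
      cases η <;> simp [ev, asg]
    | succ i =>
      have hi' : i < d := hi
      have := Cube.row (α := fun _ : Fin d => (⊤ : Con M)) (β := ⊤) ⟨i, hi'⟩
        (if false = v then (if b then y else x) else 1)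
        (if true = v then (if b then y else x) else 1) trivial
      convert this using 3 with ε η
      cases hε : ε ⟨i, hi'⟩ <;> simp [ev, asg, hi', hε]
  refine gad_ne (asg (d := d) (fun _ => true) false) (asg (d := d) (fun _ => true) true)
    (fun i => by simp [asg]) (fun i => by simp [asg]) rfl rfl d x y hc (h _ hcube fun ε hε => ?_)
  obtain ⟨i, hi⟩ := ex_false ε hε
  exact gad_eq _ _ (fun i => by simp [asg]) d x y ⟨i, i.2, by simp [asg, hi]⟩

theorem emb (h : T0 M d) : ∃ (G : Type) (_ : Group G) (f : M →* G), Function.Injective f ∧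
    ∀ g : G, ∃ s r, f s * g = f r := by
  choose u v huv using ore h
  let _ : OreLocalization.OreSet (⊤ : Submonoid M) :=
    { ore_right_cancel := fun r₁ r₂ s e => ⟨1, by rw [rcan h _ _ _ e]⟩
      oreNum := fun r s => v r s
      oreDenom := fun r s => ⟨u r s, trivial⟩
      ore_eq := fun r s => huv r s }
  let N := OreLocalization (⊤ : Submonoid M) M
  have hu : ∀ m : M, IsUnit (OreLocalization.numeratorHom (S := (⊤ : Submonoid M)) m) :=
    fun m => OreLocalization.numerator_isUnit (⟨m, trivial⟩ : (⊤ : Submonoid M))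
  refine ⟨Nˣ, inferInstance, IsUnit.liftRight _ hu, ?_, ?_⟩
  · intro a b e
    have e1 := congrArg (fun t : Nˣ => (t : N)) e
    simp only [IsUnit.coe_liftRight, OreLocalization.numeratorHom_apply] at e1
    obtain ⟨p, q, h1, h2⟩ := OreLocalization.oreDiv_eq_iff.1 e1
    have h3 : (p : M) = q := by simpa using h2
    have h4 : (p : M) * b = q * a := h1
    rw [h3] at h4
    exact (lcan h _ _ _ h4).symm
  · intro g
    have : ∀ z : N, ∃ (s r : M), OreLocalization.numeratorHom (S := (⊤ : Submonoid M)) s * z =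
        OreLocalization.numeratorHom (S := (⊤ : Submonoid M)) r := by
      intro z
      induction z using OreLocalization.ind with
      | _ r s => exact ⟨s, r, OreLocalization.mul_cancel⟩
    obtain ⟨s, r, e⟩ := this g
    refine ⟨s, r, Units.ext ?_⟩
    simpa only [Units.val_mul, IsUnit.coe_liftRight] using e

variable {G : Type} [Group G]

theorem common (h : T0 M d) (f : M →* G) (hf : ∀ g : G, ∃ s r, f s * g = f r) (a b : G) :
    ∃ (s : G) (p q : M), f p = s * a ∧ f q = s * b := by
  obtain ⟨s, r, e⟩ := hf a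
  obtain ⟨s', r', e'⟩ := hf b
  obtain ⟨u, v, huv⟩ := ore h s s'
  refine ⟨f (u * s), u * r, v * r', ?_, ?_⟩
  · rw [map_mul, map_mul, ← e, mul_assoc]
  · rw [huv, map_mul, map_mul, ← e', mul_assoc]

theorem lift_cube (h : T0 M d) (f : M →* G) (hf : ∀ g : G, ∃ s r, f s * g = f r)
    (x : (Fin d → Bool) → Bool → G) (hx : C0 x) :
    ∀ u : G, ∃ (s : G) (y : (Fin d → Bool) → Bool → M), C0 y ∧
      ∀ ε η, f (y ε η) = s * (x ε η * u) := by
  induction hx with
  | row i a b _ =>
    intro u
    obtain ⟨s, p, q, hp, hq⟩ := common h f hf (a * u) (b * u)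
    exact ⟨s, _, Cube.row i p q trivial, fun ε η => by cases hε : ε i <;> simp [hp, hq, hε]⟩
  | col a b _ =>
    intro u
    obtain ⟨s, p, q, hp, hq⟩ := common h f hf (a * u) (b * u)
    exact ⟨s, _, Cube.col p q trivial, fun ε η => by cases η <;> simp [hp, hq]⟩
  | mul x1 x2 _ _ ih1 ih2 =>
    intro u
    obtain ⟨s2, y2, h2, e2⟩ := ih2 u
    obtain ⟨s1, y1, h1, e1⟩ := ih1 s2⁻¹
    refine ⟨s1, _, Cube.mul _ _ h1 h2, fun ε η => ?_⟩
    rw [map_mul, e1, e2]
    group

theorem t0_group (h : T0 M d) (f : M →* G) (hi : Function.Injective f)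
    (hf : ∀ g : G, ∃ s r, f s * g = f r) : T0 G d := by
  intro x hx hr
  obtain ⟨s, y, hy, e⟩ := lift_cube h f hf x hx 1
  have := h y hy fun ε hε => hi (by rw [e, e, hr ε hε])
  have h2 := congrArg f this
  rw [e, e] at h2
  simpa using h2

theorem c0_inv (x : (Fin d → Bool) → Bool → G) (hx : C0 x) : C0 (fun ε η => (x ε η)⁻¹) := by
  induction hx with
  | row i a b _ =>
    convert Cube.row (α := fun _ : Fin d => (⊤ : Con G)) (β := ⊤) i a⁻¹ b⁻¹ trivial using 3
    beta_reduce
    split_ifs <;> rfl
  | col a b _ =>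
    convert Cube.col (α := fun _ : Fin d => (⊤ : Con G)) (β := ⊤) a⁻¹ b⁻¹ trivial using 3
    beta_reduce
    split_ifs <;> rfl
  | mul x1 x2 _ _ ih1 ih2 =>
    simp only [mul_inv_rev]
    exact Cube.mul _ _ ih2 ih1

def cm (c a : G) : G := c * a * c⁻¹ * a⁻¹

theorem fold_one (l : List G) : l.foldl cm 1 = 1 := by
  induction l with
  | nil => rfl
  | cons a l ih => simpa [cm] using ih

theorem fold_mem (l : List G) (h : 1 ∈ l) (g : G) : l.foldl cm g = 1 := by
  induction l generalizing g with
  | nil => simp at h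
  | cons a l ih =>
    rcases List.mem_cons.1 h with h | h
    · subst h
      simpa [cm] using fold_one l
    · exact ih h _

theorem fold_cube (a : Fin d → G) (l : List (Fin d)) :
    ∀ x : (Fin d → Bool) → Bool → G, C0 x →
      C0 (fun ε η => (l.map fun i => if ε i then a i else 1).foldl cm (x ε η)) := by
  induction l with
  | nil => intro x hx; simpa using hx
  | cons i l ih =>
    intro x hx
    simp only [List.map_cons, List.foldl_cons]
    have hr : C0 (d := d) (fun ε _ => if ε i then a i else (1 : G)) := Cube.row i 1 (a i) trivial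
    exact ih _ (Cube.mul _ _ (Cube.mul _ _ (Cube.mul _ _ hx hr) (c0_inv _ hx)) (c0_inv _ hr))

theorem mem_ucs (k : ℕ) : ∀ g : G, (∀ l : List G, l.length = k → l.foldl cm g = 1) →
    g ∈ Subgroup.upperCentralSeries G k := by
  induction k with
  | zero => intro g h; simpa using h [] rfl
  | succ k ih =>
    intro g h
    rw [Subgroup.mem_upperCentralSeries_succ_iff]
    intro y
    exact ih _ fun l hl => h (y :: l) (by simp [hl])

theorem ucs_top (h : T0 G d) (g : G) : g ∈ Subgroup.upperCentralSeries G d := by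
  refine mem_ucs d g fun l hl => ?_
  subst hl
  have := h _ (fold_cube l.get (List.finRange l.length) _ (Cube.col 1 g trivial)) fun ε hε => by
    obtain ⟨i, hi⟩ := ex_false ε hε
    have hm : (1 : G) ∈ (List.finRange l.length).map fun i => if ε i then l.get i else 1 :=
      List.mem_map.2 ⟨i, List.mem_finRange i, by simp [hi]⟩
    simp only [fold_mem _ hm]
  simp only [if_true, List.map_get_finRange, Bool.false_eq_true, if_false, fold_one] at this
  exact this.symm

theorem tc_left {H : Type} [Group H] (φ : M →* H) (β : Con M)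
    (hβ : ∀ a b, β a b → (φ a)⁻¹ * φ b ∈ Subgroup.center H) :
    bc ⊤ β ≤ Con.ker φ := by
  apply sInf_le
  intro x hx hr
  have key : ∃ c ∈ Subgroup.center H, ∀ ε, φ (x ε true) = φ (x ε false) * c := by
    clear hr
    induction hx with
    | row i a b _ => exact ⟨1, one_mem _, fun ε => by simp⟩
    | col a b hab => exact ⟨_, hβ a b hab, fun ε => by simp⟩
    | mul x1 x2 _ _ ih1 ih2 =>
      obtain ⟨c1, h1, e1⟩ := ih1
      obtain ⟨c2, h2, e2⟩ := ih2
      refine ⟨c1 * c2, mul_mem h1 h2, fun ε => ?_⟩
      have := Subgroup.mem_center_iff.1 h1 (φ (x2 ε false))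
      rw [map_mul, map_mul, e1, e2, mul_assoc, ← mul_assoc c1, ← this]
      simp only [mul_assoc]
  obtain ⟨c, -, e⟩ := key
  have h0 := hr (fun _ => false) (fun h => by simpa using congrFun h 0)
  rw [Con.ker_rel, e] at h0 ⊢
  have : c = 1 := by simpa using h0
  rw [this, mul_one]

theorem tc_right {H : Type} [Group H] (φ : M →* H) (β : Con M)
    (hβ : ∀ a b, β a b → (φ a)⁻¹ * φ b ∈ Subgroup.center H) :
    bc β ⊤ ≤ Con.ker φ := by
  apply sInf_le
  intro x hx hr
  have key : ∃ c ∈ Subgroup.center H, ∀ η,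
      φ (x (fun _ => true) η) = φ (x (fun _ => false) η) * c := by
    clear hr
    induction hx with
    | row i a b hab => exact ⟨_, hβ a b hab, fun ε => by simp⟩
    | col a b _ => exact ⟨1, one_mem _, fun ε => by simp⟩
    | mul x1 x2 _ _ ih1 ih2 =>
      obtain ⟨c1, h1, e1⟩ := ih1
      obtain ⟨c2, h2, e2⟩ := ih2
      refine ⟨c1 * c2, mul_mem h1 h2, fun η => ?_⟩
      have := Subgroup.mem_center_iff.1 h1 (φ (x2 (fun _ => false) η))
      rw [map_mul, map_mul, e1, e2, mul_assoc, ← mul_assoc c1, ← this]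
      simp only [mul_assoc]
  obtain ⟨c, -, e⟩ := key
  have h0 := hr (fun _ => false) (fun h => by simpa using congrFun h 0)
  rw [Con.ker_rel] at h0 ⊢
  rw [e, e, h0]

/-- the quotient map modulo the j-th term of the upper central series -/
def ph (f : M →* G) (j : ℕ) : M →* G ⧸ Subgroup.upperCentralSeries G j :=
  (QuotientGroup.mk' (Subgroup.upperCentralSeries G j)).comp f

theorem ph_center (f : M →* G) (j : ℕ) (a b : M) (h : Con.ker (ph f (j + 1)) a b) :
    (ph f j a)⁻¹ * ph f j b ∈ Subgroup.center (G ⧸ Subgroup.upperCentralSeries G j) := by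
  rw [Con.ker_rel] at h
  have h1 : (f a)⁻¹ * f b ∈ Subgroup.upperCentralSeries G (j + 1) := QuotientGroup.eq.1 h
  have h2 : (ph f j a)⁻¹ * ph f j b = (((f a)⁻¹ * f b : G) : G ⧸ Subgroup.upperCentralSeries G j) := rfl
  rw [h2, Subgroup.mem_center_iff]
  generalize (f a)⁻¹ * f b = g at h1
  intro z
  induction z using QuotientGroup.induction_on with
  | H y =>
    rw [← QuotientGroup.mk_mul, ← QuotientGroup.mk_mul, QuotientGroup.eq]
    have := Subgroup.mem_upperCentralSeries_succ_iff.1 (inv_mem h1) y⁻¹
    convert this using 1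
    rw [commutatorElement_def]
    group

theorem series (f : M →* G) (hi : Function.Injective f)
    (hG : ∀ g : G, g ∈ Subgroup.upperCentralSeries G d) (L : ℕ → Con M)
    (hL : ∀ (k : ℕ) (H : Type) [Group H] (φ : M →* H),
      (∀ a b, L k a b → (φ a)⁻¹ * φ b ∈ Subgroup.center H) → L (k + 1) ≤ Con.ker φ) :
    L d = ⊥ := by
  have key : ∀ k j, j + k = d → L k ≤ Con.ker (ph f j) := by
    intro k
    induction k with
    | zero =>
      intro j hj
      have : j = d := by omega
      subst this
      rw [Con.le_def]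
      intro a b _
      rw [Con.ker_rel]
      exact QuotientGroup.eq.2 (hG _)
    | succ k ih =>
      intro j hj
      exact hL k _ _ fun a b hab =>
        ph_center f j a b (Con.le_def.1 (ih (j + 1) (by omega)) hab)
  refine le_antisymm ?_ bot_le
  rw [Con.le_def]
  intro a b hab
  have h1 := Con.le_def.1 (key d 0 (by simp)) hab
  rw [Con.ker_rel] at h1
  have h2 : (f a)⁻¹ * f b ∈ Subgroup.upperCentralSeries G 0 := QuotientGroup.eq.1 h1
  rw [Subgroup.upperCentralSeries_zero, Subgroup.mem_bot, inv_mul_eq_one] at h2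
  exact hi h2

end Mon

/-- Every d-supernilpotent monoid is left d-nilpotent and right d-nilpotent. -/
theorem result (M : Type) [Monoid M] (d : ℕ)
    (h : hc (fun _ : Fin d => (⊤ : Con M)) ⊤ = ⊥) : leftS M d = ⊥ ∧ rightS M d = ⊥ := by
  have h0 := t0_of h
  obtain ⟨G, _, f, hi, hf⟩ := emb h0
  have hG := ucs_top (t0_group h0 f hi hf)
  exact ⟨series f hi hG (leftS M) fun k H _ φ hφ => tc_left φ _ hφ,
    series f hi hG (rightS M) fun k H _ φ hφ => tc_right φ _ hφ⟩

end Pool.Agent.Results.MP_d3d931_al.MonoidCase
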